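import Pool.Agent.Helper38.XF.Spec

/-!
The uniformiser is a `p`-basis of the field of Laurent series over `ZMod p` (part PB).
-/

set_option autoImplicit false

namespace Pool.Agent.Helper68.XF

open Pool.Agent.Helper38.XF

theorem pow_eq_expand (p : ℕ) [Fact p.Prime] (f : PowerSeries (ZMod p)) :
    f ^ p = PowerSeries.expand p (Nat.Prime.ne_zero Fact.out) f := by
  have h := MvPowerSeries.map_frobenius_expand (σ := Unit) (R := ZMod p) (p := p)
    (Nat.Prime.ne_zero Fact.out) (f := f)
  rw [ZMod.frobenius_zmod] at h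
  rw [← h]
  ext n
  simp [PowerSeries.expand, PowerSeries.coeff]

theorem coeff_term (p : ℕ) [Fact p.Prime] (f : PowerSeries (ZMod p)) (i j : Fin p) (n : ℕ) :
    (f ^ p * PowerSeries.X ^ (i : ℕ)).coeff (p * n + j) = if i = j then f.coeff n else 0 := by
  have hp : p ≠ 0 := Nat.Prime.ne_zero Fact.out
  rw [pow_eq_expand, PowerSeries.coeff_mul_X_pow']
  split_ifs with h1 h2 h2
  · subst h2
    rw [Nat.add_sub_cancel, PowerSeries.coeff_expand_mul]
  · rw [PowerSeries.coeff_expand_of_not_dvd]
    intro h3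
    apply h2
    have h4 : (p * n + j) ≡ i [MOD p] := ((Nat.modEq_iff_dvd' h1).2 h3).symm
    have h5 : (j : ℕ) ≡ i [MOD p] := by
      have : p * n + j ≡ j [MOD p] := by simp [Nat.ModEq]
      exact this.symm.trans h4
    rw [Nat.ModEq, Nat.mod_eq_of_lt j.2, Nat.mod_eq_of_lt i.2] at h5
    exact Fin.ext h5.symm
  · subst h2
    omega
  · rfl

theorem ps_exists (p : ℕ) [Fact p.Prime] (F : PowerSeries (ZMod p)) :
    ∃ G : Fin p → PowerSeries (ZMod p), F = ∑ i, G i ^ p * PowerSeries.X ^ (i : ℕ) := by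
  have hp : 0 < p := Nat.Prime.pos Fact.out
  refine ⟨fun i => PowerSeries.mk fun n => F.coeff (p * n + i), ?_⟩
  ext m
  obtain ⟨j, n, rfl⟩ : ∃ (j : Fin p) (n : ℕ), m = p * n + j :=
    ⟨⟨m % p, Nat.mod_lt _ hp⟩, m / p, (Nat.div_add_mod m p).symm⟩
  rw [map_sum]
  simp_rw [coeff_term]
  simp

theorem ps_unique (p : ℕ) [Fact p.Prime] (G : Fin p → PowerSeries (ZMod p))
    (h : ∑ i, G i ^ p * PowerSeries.X ^ (i : ℕ) = 0) (j : Fin p) : G j = 0 := by
  ext n
  have h1 := congrArg (PowerSeries.coeff (p * n + j)) h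
  rw [map_sum] at h1
  simp_rw [coeff_term] at h1
  simpa using h1

theorem main : St_PB := by
  intro p _
  have hp : p ≠ 0 := Nat.Prime.ne_zero Fact.out
  have hX : (HahnSeries.single 1 1 : LaurentSeries (ZMod p)) =
      algebraMap (PowerSeries (ZMod p)) (LaurentSeries (ZMod p)) PowerSeries.X := by
    rw [LaurentSeries.coe_algebraMap, HahnSeries.ofPowerSeries_X]
  have hinj : Function.Injective
      (algebraMap (PowerSeries (ZMod p)) (LaurentSeries (ZMod p))) := by
    rw [LaurentSeries.coe_algebraMap]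
    exact HahnSeries.ofPowerSeries_injective
  have hb : ∀ b : Submonoid.powers (PowerSeries.X : PowerSeries (ZMod p)),
      algebraMap (PowerSeries (ZMod p)) (LaurentSeries (ZMod p)) b ≠ 0 := by
    rintro ⟨_, n, rfl⟩ h
    rw [← map_zero (algebraMap (PowerSeries (ZMod p)) (LaurentSeries (ZMod p)))] at h
    exact pow_ne_zero n PowerSeries.X_ne_zero (hinj h)
  rw [hX]
  constructor
  · intro z
    obtain ⟨⟨x, b⟩, hxb⟩ := IsLocalization.surj
      (Submonoid.powers (PowerSeries.X : PowerSeries (ZMod p))) z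
    dsimp only at hxb
    obtain ⟨G, hG⟩ := ps_exists p (x * (b : PowerSeries (ZMod p)) ^ (p - 1))
    refine ⟨fun i => algebraMap (PowerSeries (ZMod p)) (LaurentSeries (ZMod p)) (G i) /
      algebraMap (PowerSeries (ZMod p)) (LaurentSeries (ZMod p)) b, ?_⟩
    have h1 : z * (algebraMap (PowerSeries (ZMod p)) (LaurentSeries (ZMod p)) b) ^ p =
        algebraMap (PowerSeries (ZMod p)) (LaurentSeries (ZMod p))
          (x * (b : PowerSeries (ZMod p)) ^ (p - 1)) := by
      rw [map_mul, map_pow, ← hxb, mul_assoc, ← pow_succ', Nat.sub_add_cancel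
        (Nat.one_le_iff_ne_zero.2 hp)]
    rw [hG, map_sum] at h1
    have h2 := pow_ne_zero p (hb b)
    refine mul_right_cancel₀ h2 ?_
    rw [h1, Finset.sum_mul]
    refine Finset.sum_congr rfl fun j _ => ?_
    rw [map_mul, map_pow, map_pow, div_pow]
    field_simp
  · intro c h i
    obtain ⟨b, hbc⟩ := IsLocalization.exist_integer_multiples_of_finite
      (Submonoid.powers (PowerSeries.X : PowerSeries (ZMod p))) c
    choose G hG using hbc
    have h1 : ∑ i, G i ^ p * PowerSeries.X ^ (i : ℕ) = 0 := by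
      apply hinj
      rw [map_sum, map_zero]
      rw [← mul_zero ((algebraMap (PowerSeries (ZMod p)) (LaurentSeries (ZMod p)) b) ^ p), ← h,
        Finset.mul_sum]
      refine Finset.sum_congr rfl fun j _ => ?_
      rw [map_mul, map_pow, map_pow, hG, Algebra.smul_def, mul_pow, mul_assoc]
    have h2 := ps_unique p G h1 i
    have h3 := hG i
    rw [h2, map_zero, Algebra.smul_def] at h3
    rcases mul_eq_zero.1 h3.symm with h4 | h4
    · exact absurd h4 (hb b)
    · exact h4

end Pool.Agent.Helper68.XF
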